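import Pool.Agent.Helper20.FQ.Lf2
import Pool.Agent.Helper55.FQ.Cfg
import Pool.Agent.Helper7.NI.Inst
import Pool.Agent.Helper52.FQ.Inst

/-!
# Project FQ (MP_0f6f3f_an), layer LF for the configuration

`irr_orb`: `SI` and finite orbits of subspaces. `mau_seq`: the Mautner property of the elements contracted by a sequence `ea (c k_n e_u)`, `k_n → ∞`. `Cf.lfr`, `Cf.lfl`: no mass of `V_{w_u^n}` near the hyperplanes of the node `j` of the target,
right and left data. `Cf.lfr_nd`, `Cf.lfl_nd`: in terms of helper7's `ndOf`.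
-/

set_option autoImplicit false
set_option linter.unusedSectionVars false

open Filter Topology MeasureTheory Matrix

namespace Pool.Agent.Helper11.FQ

section Orb

open Pool.Agent.Helper84.GDL (GD SI)

variable {𝔾 : Type} [Group 𝔾] [TopologicalSpace 𝔾] {ι : Type} [Fintype ι] [DecidableEq ι] (D : GD 𝔾 ι)

/-- The action on the subspaces. -/
@[reducible] def actSub {Λ : Subgroup 𝔾} {m : ℕ} (ρ : Λ →* Matrix (Fin m) (Fin m) ℝ) : MulAction Λ (Submodule ℝ (Fin m → ℝ)) where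
  smul k W := W.map (ρ k).mulVecLin
  one_smul W := by
    change W.map (ρ 1).mulVecLin = W
    rw [map_one, Matrix.mulVecLin_one, Submodule.map_id]
  mul_smul k k' W := by
    change W.map (ρ (k * k')).mulVecLin = (W.map (ρ k').mulVecLin).map (ρ k).mulVecLin
    rw [map_mul, Matrix.mulVecLin_mul, Submodule.map_comp]

theorem irr_orb {Λ : Subgroup 𝔾} (hS : SI D Λ) (l : ι) (W : Submodule ℝ (Fin (D.d l + 1) → ℝ))
    (hfin : (Set.range fun k : Λ => W.map (((D.rho l).comp Λ.subtype) k).mulVecLin).Finite) : W = ⊥ ∨ W = ⊤ := by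
  set ρ : Λ →* Matrix (Fin (D.d l + 1)) (Fin (D.d l + 1)) ℝ := (D.rho l).comp Λ.subtype with hρ
  let _ : MulAction Λ (Submodule ℝ (Fin (D.d l + 1) → ℝ)) := actSub ρ
  have h1 : Finite (MulAction.orbit Λ W) := hfin.to_subtype
  have h2 : Finite (Λ ⧸ MulAction.stabilizer Λ W) := Finite.of_equiv _ (MulAction.orbitEquivQuotientStabilizer Λ W)
  have h3 : (MulAction.stabilizer Λ W).FiniteIndex := Subgroup.finiteIndex_iff_finite_quotient.2 h2
  refine hS l ((MulAction.stabilizer Λ W).map Λ.subtype) (Subgroup.map_subtype_le _) ?_ W ?_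
  · have h4 : ((MulAction.stabilizer Λ W).map Λ.subtype).subgroupOf Λ = MulAction.stabilizer Λ W :=
      Subgroup.comap_map_eq_self_of_injective Λ.subtype_injective _
    rw [h4]
    exact h3
  · rintro γ ⟨k, hk, rfl⟩ w hw
    have h5 : W.map (ρ k).mulVecLin = W := MulAction.mem_stabilizer_iff.1 hk
    have h6 : (ρ k).mulVecLin w ∈ W.map (ρ k).mulVecLin := Submodule.mem_map_of_mem hw
    rw [h5] at h6
    exact h6

end Orb

section Mau

open Pool.Agent.Helper96.SA Pool.Agent.Helper96.FR Pool.Agent.Helper43.TZ Pool.Agent.Helper96.TO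
open Pool.Agent.Helper35.TZ (autC isAdj_autC autC_sub)
open Pool.Agent.Helper84.GDL (GD)
open Pool.Agent.Helper55.FQ Pool.Agent.Helper10.FQ
open Pool.Agent.Helper78.BM (Ctr)

variable {L : Type} [LieRing L] [LieAlgebra ℝ L] {N : ℕ} {θ : L ≃ₗ⁅ℝ⁆ L} {b : Module.Basis (Fin N) ℝ L} {A : Submodule ℝ L}
  {τ : Module.Dual ℝ A ≃ₗ[ℝ] A} {r : ℕ} {al : Fin r → Module.Dual ℝ A} {W : Fin r → A} {D : GD (autC b) (Fin r)}

theorem W_ne (G : Gr θ b A τ al W D) (u : Fin r) : W u ≠ 0 := by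
  intro h
  have h1 := G.hW u u
  rw [h, map_zero, if_pos rfl] at h1
  exact zero_ne_one h1

/-- The sequence in the flat. -/
theorem ea_single (G : Gr θ b A τ al W D) (u : Fin r) (t : ℝ) :
    ((D.ea (Pi.single u t) : autC b) : GL (Fin N) ℝ) = ex (t • TT_to b (W u : L)) := by
  rw [G.ea, Pool.Agent.Helper77.FQ.eaG_coe, Pool.Agent.Helper77.FQ.eaA]
  congr 1
  have h1 : ∑ i, (Pi.single u t : Fin r → ℝ) i • W i = t • W u := by
    rw [Finset.sum_eq_single u]
    · rw [Pi.single_eq_same]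
    · intro i _ hi
      rw [Pi.single_eq_of_ne hi, zero_smul]
    · intro h
      exact absurd (Finset.mem_univ u) h
  rw [h1, Submodule.coe_smul, map_smul]

/-- **Mautner property of the contracted elements.** -/
theorem mau_seq [LieAlgebra.IsSimple ℝ L] (G : Gr θ b A τ al W D) (u : Fin r) {s : ℝ} (hs : s ≠ 0) {k : ℕ → ℝ}
    (hk : Tendsto k (hyperfilter ℕ : Filter ℕ) atTop) : MauU (Ctr fun n => D.ea (Pi.single u (s * k n))) := by
  intro K _ _ σ ξ hξ hU g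
  refine Pool.Agent.Helper50.SR.maut_gen G.s.h (isAdj_autC b) (autC_sub G.s.h) G.s.hA (H := s • W u)
    (smul_ne_zero hs (W_ne G u)) σ ξ hξ (fun Y hY c' hc' hcom t => hU _ ?_) g
  have h8 : Tendsto (fun n : ℕ => Real.exp (c' * k n) * t) (hyperfilter ℕ : Filter ℕ) (𝓝 0) := by
    have h9 : Tendsto (fun n : ℕ => c' * k n) (hyperfilter ℕ : Filter ℕ) atBot := hk.const_mul_atTop_of_neg hc'
    have h10 := (Real.tendsto_exp_atBot.comp h9).mul_const t
    rwa [zero_mul] at h10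
  have h1 := ((continuous_exl hY).tendsto 0).comp h8
  have h2 : (⟨ex ((0 : ℝ) • Y), mem_lie.1 hY 0⟩ : autC b) = 1 := by
    apply Subtype.ext
    change ex ((0 : ℝ) • Y) = 1
    rw [zero_smul, ex_zero]
  rw [h2] at h1
  refine h1.congr fun n => Subtype.ext ?_
  rw [Subgroup.coe_mul, Subgroup.coe_mul, Subgroup.coe_inv, ea_single G]
  change ex ((Real.exp (c' * k n) * t) • Y) = ex ((s * k n) • TT_to b (W u : L)) * ex (t • Y) * (ex ((s * k n) • TT_to b (W u : L)))⁻¹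
  have e1 : (s * k n) • TT_to b (W u : L) = k n • TT_to b ((s • W u : A) : L) := by
    rw [Submodule.coe_smul, map_smul, smul_smul, mul_comm]
  rw [e1, Pool.Agent.Helper90.OB.conj_root (X := t • Y) (c := c')
    (by rw [Matrix.mul_smul, Matrix.smul_mul, ← smul_sub, hcom, smul_comm]), smul_smul]

/-- The sequences of powers which tend to infinity. -/
theorem mau_range [LieAlgebra.IsSimple ℝ L] (G : Gr θ b A τ al W D) (u : Fin r) {s : ℝ} (hs : s ≠ 0) (f : ℕ → autC b)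
    (hf : ∀ n, f n ∈ Set.range fun n : ℕ => D.ea (Pi.single u (s * (n : ℝ))))
    (ht : Tendsto f (hyperfilter ℕ : Filter ℕ) (cocompact (autC b))) : MauU (Ctr f) := by
  choose m hm using hf
  have h1 : Tendsto (fun n => (m n : ℝ)) (hyperfilter ℕ : Filter ℕ) atTop := by
    refine tendsto_natCast_atTop_atTop.comp ?_
    rw [tendsto_atTop]
    intro M
    have h2 : Set.Finite ((fun n : ℕ => D.ea (Pi.single u (s * (n : ℝ)))) '' (Set.Iio M)) := (Set.finite_Iio M).image _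
    have h3 := ht (h2.isCompact.compl_mem_cocompact)
    filter_upwards [h3] with n hn
    by_contra hc
    exact hn ⟨m n, not_le.1 hc, hm n⟩
  have h2 := mau_seq G u hs h1
  have h3 : (fun n => D.ea (Pi.single u (s * (m n : ℝ)))) = f := funext hm
  rwa [h3] at h2

end Mau

section Cf

open Pool.Agent.Helper84.NI Pool.Agent.Helper84.GVN Pool.Agent.Helper90.RK
open Pool.Agent.Helper96.RK Pool.Agent.Helper66.FR Pool.Agent.Helper84.FR Pool.Agent.Helper55.FR Pool.Agent.Helper78.BM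
open Pool.Agent.Helper35.TZ (autC isAdj_autC)
open Pool.Agent.Helper84.GDL (GD SI)
open Pool.Agent.Helper55.FQ Pool.Agent.Helper20.FQ Pool.Agent.Helper9.FQ Pool.Agent.Helper20.TB
open Pool.Agent.Helper10.FQ

variable {L L' : Type} [LieRing L] [LieAlgebra ℝ L] [LieRing L'] [LieAlgebra ℝ L'] {N N' : ℕ} {r : ℕ}
  {θ : L ≃ₗ⁅ℝ⁆ L} {θ' : L' ≃ₗ⁅ℝ⁆ L'} {b : Module.Basis (Fin N) ℝ L} {b' : Module.Basis (Fin N') ℝ L'}
  {A : Submodule ℝ L} {A' : Submodule ℝ L'} {τ : Module.Dual ℝ A ≃ₗ[ℝ] A} {τ' : Module.Dual ℝ A' ≃ₗ[ℝ] A'}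
  {al : Fin r → Module.Dual ℝ A} {al' : Fin r → Module.Dual ℝ A'} {W : Fin r → A} {W' : Fin r → A'}
  {D : GD (autC b) (Fin r)} {D' : GD (autC b') (Fin r)} [MeasurableSpace (autC b)] [BorelSpace (autC b)]
  {Γ : Subgroup (autC b)} {Λ : Subgroup (autC b')} [Countable Γ] [Countable Λ]
  {X : Type} [MeasurableSpace X] [MulAction (autC b) X] [MeasurableConstSMul (autC b) X] {μ : Measure X}
  [SMulInvariantMeasure (autC b) X μ] [IsProbabilityMeasure μ] {a : Cocy (autC b) X Γ} {E : Emb Γ Λ}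

theorem hirr_cf (C : Cf θ θ' A A' τ τ' al al' W W' D D' μ a E) (j : Fin r) :
    ∀ F : Submodule ℝ (EuclideanSpace ℝ (Fin (D'.d j + 1))), F ≠ ⊥ → F ≠ ⊤ →
      (Set.range fun k => trS (opH ((D'.rho j).comp Λ.subtype)) k F).Infinite :=
  hirr_of ((D'.rho j).comp Λ.subtype) fun W hW => irr_orb D' C.si' j W hW

/-- Uniform form, right data. -/
theorem lfr_unif (C : Cf θ θ' A A' τ τ' al al' W W' D D' μ a E) (u j : Fin r) {s : ℝ} (hs : s ≠ 0) {ε : ℝ} (hε : 0 < ε) :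
    ∃ δ : ℝ, 0 < δ ∧ ∀ (n : ℕ) (v : EuclideanSpace ℝ (Fin (D'.d j + 1))), ‖v‖ = 1 →
      mass μ a E (AbV (opH ((D'.rho j).comp Λ.subtype)) v δ) (D.ea (Pi.single u (s * (n : ℝ)))) ≤ ε := by
  have : LieAlgebra.IsSimple ℝ L := C.simple
  obtain ⟨δ, hδ, h⟩ := lf_F (μ := μ) (a := a) (E := E) (opH ((D'.rho j).comp Λ.subtype)) C.cyc.h3 C.cyc.hK C.cyc.coci C.cyc.full
    (hirr_cf C j) (F := Set.range fun n : ℕ => D.ea (Pi.single u (s * (n : ℝ)))) (fun f hf ht => mau_range C.G u hs f hf ht) hε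
  exact ⟨δ, hδ, fun n v hv => h _ ⟨n, rfl⟩ v hv⟩

/-- Uniform form, left data. -/
theorem lfl_unif (C : Cf θ θ' A A' τ τ' al al' W W' D D' μ a E) (u j : Fin r) {s : ℝ} (hs : s ≠ 0) {ε : ℝ} (hε : 0 < ε) :
    ∃ δ : ℝ, 0 < δ ∧ ∀ (n : ℕ) (v : EuclideanSpace ℝ (Fin (D'.d j + 1))), ‖v‖ = 1 →
      mass μ a E (AbL (opH ((D'.rho j).comp Λ.subtype)) v δ) (D.ea (Pi.single u (s * (n : ℝ)))) ≤ ε := by
  have : LieAlgebra.IsSimple ℝ L := C.simple
  obtain ⟨δ, hδ, h⟩ := lf_allL (μ := μ) (a := a) (E := E) (opH ((D'.rho j).comp Λ.subtype)) C.cyc.h3 C.cyc.hK C.cyc.coci C.cyc.full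
    (hirr_cf C j) (F := Set.range fun n : ℕ => D.ea (Pi.single u (-s * (n : ℝ)))) (K := {1})
    (fun f hf ht => mau_range C.G u (neg_ne_zero.2 hs) f hf ht) isCompact_singleton hε
  refine ⟨δ, hδ, fun n v hv => ?_⟩
  have h1 := h 1 rfl _ ⟨n, rfl⟩ 1 rfl v hv
  have h2 : (1 * D.ea (Pi.single u (-s * (n : ℝ))) * 1)⁻¹ = D.ea (Pi.single u (s * (n : ℝ))) := by
    rw [one_mul, mul_one, ← D.ea_neg, ← Pi.single_neg]
    congr 2
    ring
  rwa [h2] at h1

/-- **LF**, right data, for the node `j` of the target. -/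
theorem Cf.lfr (C : Cf θ θ' A A' τ τ' al al' W W' D D' μ a E) (u j : Fin r) (fl : Filter ℕ) :
    LFR μ a E (fun γ : Λ => ((D'.rho j).comp Λ.subtype) γ) (wn D u) fl := by
  intro ε hε
  obtain ⟨δ, hδ, h⟩ := lfr_unif C u j one_ne_zero hε
  refine ⟨δ, hδ, Eventually.of_forall fun n v hv => ?_⟩
  have h1 := h n v hv
  rw [one_mul] at h1
  exact h1

/-- **LF**, left data, for the node `j` of the target. -/
theorem Cf.lfl (C : Cf θ θ' A A' τ τ' al al' W W' D D' μ a E) (u j : Fin r) (fl : Filter ℕ) :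
    LFL μ a E (fun γ : Λ => ((D'.rho j).comp Λ.subtype) γ) (wn D u) fl := by
  intro ε hε
  obtain ⟨δ, hδ, h⟩ := lfl_unif C u j one_ne_zero hε
  refine ⟨δ, hδ, Eventually.of_forall fun n v hv => ?_⟩
  have h1 := h n v hv
  rw [one_mul] at h1
  have h3 : {γ : Λ | ‖op (((D'.rho j).comp Λ.subtype) γ)ᵀ v‖ ≤ δ * ‖op (((D'.rho j).comp Λ.subtype) γ)‖} =
      AbL (opH ((D'.rho j).comp Λ.subtype)) v δ := by
    ext γ
    unfold AbL
    rw [Set.mem_ofPred_eq, Set.mem_ofPred_eq, opH_apply, op_transpose]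
  rw [h3]
  exact h1

theorem wn_pow (D : GD (autC b) (Fin r)) (u : Fin r) : (fun n : ℕ => D.ea (Pi.single u 1) ^ n) = wn D u := by
  funext n
  rw [Pool.Agent.Helper52.FQ.ea_pow, mul_one]
  rfl

/-- **LF** for the data of the lattice, right data. -/
theorem Cf.lfr_nd [DiscreteTopology Λ] (C : Cf θ θ' A A' τ τ' al al' W W' D D' μ a E)
    (h1 : ∀ l, ∃ i, ∀ j, D'.n l i j = if j = l then 1 else 0) (u j : Fin r) (fl : Filter ℕ) :
    LFR μ a E ((Pool.Agent.Helper7.NI.ndOf D' Λ h1).r j) (fun n : ℕ => D.ea (Pi.single u 1) ^ n) fl := by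
  rw [wn_pow]
  exact Cf.lfr C u j fl

/-- **LF** for the data of the lattice, left data. -/
theorem Cf.lfl_nd [DiscreteTopology Λ] (C : Cf θ θ' A A' τ τ' al al' W W' D D' μ a E)
    (h1 : ∀ l, ∃ i, ∀ j, D'.n l i j = if j = l then 1 else 0) (u j : Fin r) (fl : Filter ℕ) :
    LFL μ a E ((Pool.Agent.Helper7.NI.ndOf D' Λ h1).r j) (fun n : ℕ => D.ea (Pi.single u 1) ^ n) fl := by
  rw [wn_pow]
  exact Cf.lfl C u j fl

end Cf

end Pool.Agent.Helper11.FQ
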