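import Pool.Agent.Helper52.FQ.Th
import Pool.Agent.Helper52.FQ.Br
import Pool.Agent.Helper9.FQ.U2

/-!
# Project FQ (MP_0f6f3f_an), layer INS: Markov's inequality for `da`, translates

`da_markov`: an estimate of `f c c'` for the pairs `(c, c')` such that `U_c`, `U_c'` are nearly carried by the complements of `P`, `Q` gives an estimate of the double average `da`.
`commR_lam_mul`: `lamU b * E.U c'` commutes with the right translations, `lam_mul_dl` its value at `δ₁`; `norm_ind_lamU`: masses of translates. `ul_sa_le`, `tendsto_sa_le`: square averages.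
-/

set_option autoImplicit false
set_option linter.unusedSectionVars false

open MeasureTheory Filter Topology
open scoped ENNReal ComplexConjugate

namespace Pool.Agent.Helper11.FQ

open Pool.Agent.Helper84 Pool.Agent.Helper84.GN Pool.Agent.Helper84.GN.S3 Pool.Agent.Helper84.GN.S3.X
open Pool.Agent.Helper84.NI Pool.Agent.Helper84.GVN Pool.Agent.Helper90.RK
open Pool.Agent.Helper96.RK Pool.Agent.Helper66.FR Pool.Agent.Helper84.FR Pool.Agent.Helper55.FR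
open Pool.Agent.Helper52.FQ

section Mk

variable {G1 X G Λ : Type} [Group G1] [TopologicalSpace G1] [IsTopologicalGroup G1] [SecondCountableTopology G1] [LocallyCompactSpace G1]
  [MeasurableSpace G1] [BorelSpace G1] [MeasurableSpace X] [MulAction G1 X]
  [MeasurableConstSMul G1 X] [Group G] [Group Λ] [Countable Λ] {μ : Measure X} [SMulInvariantMeasure G1 X μ]
  [IsProbabilityMeasure μ] {a : Cocy G1 X Λ} {E : Emb Λ G} {w : G1}

/-- **Markov's inequality.** -/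
theorem da_markov {f : Λ → Λ → ℝ} (h0 : ∀ c c', 0 ≤ f c c') (h1 : ∀ c c', f c c' ≤ 1) {P Q : Set G} {η d d' : ℝ} (hη : 0 ≤ η) (hd : 0 < d)
    (hd' : 0 < d') (h : ∀ c c', ‖ind ℂ P (uv E c)‖ ≤ d → ‖ind ℂ Q (uv E c')‖ ≤ d' → f c c' ≤ η) (n m : ℕ) :
    da μ a w f n m ≤ η + Pool.Agent.Helper9.FQ.mass μ a E P (w ^ n) / d ^ 2 + Pool.Agent.Helper9.FQ.mass μ a E Q (w ^ m) / d' ^ 2 := by
  have hp : ∀ (S : Set G) (c : Λ), ‖ind ℂ S (uv E c)‖ ^ 2 ≤ 1 := fun S c => by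
    have := ind_sq_le S (uv E c)
    rwa [norm_uv, one_pow] at this
  have hpt : ∀ c c', f c c' ≤ (η + ‖ind ℂ P (uv E c)‖ ^ 2 / d ^ 2) + ‖ind ℂ Q (uv E c')‖ ^ 2 / d' ^ 2 := by
    intro c c'
    have k1 : 0 ≤ ‖ind ℂ P (uv E c)‖ ^ 2 / d ^ 2 := by positivity
    have k2 : 0 ≤ ‖ind ℂ Q (uv E c')‖ ^ 2 / d' ^ 2 := by positivity
    by_cases e1 : ‖ind ℂ P (uv E c)‖ ≤ d
    · by_cases e2 : ‖ind ℂ Q (uv E c')‖ ≤ d'
      · have := h c c' e1 e2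
        linarith
      · push Not at e2
        have e3 : 1 ≤ ‖ind ℂ Q (uv E c')‖ ^ 2 / d' ^ 2 := by
          rw [le_div_iff₀ (by positivity), one_mul]
          exact pow_le_pow_left₀ hd'.le e2.le 2
        have := h1 c c'
        linarith
    · push Not at e1
      have e3 : 1 ≤ ‖ind ℂ P (uv E c)‖ ^ 2 / d ^ 2 := by
        rw [le_div_iff₀ (by positivity), one_mul]
        exact pow_le_pow_left₀ hd.le e1.le 2
      have := h1 c c'
      linarith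
  have hf : ∀ c c', ‖f c c'‖ ≤ 1 := fun c c' => by
    rw [Real.norm_of_nonneg (h0 c c')]
    exact h1 c c'
  have hP : ∀ c c' : Λ, ‖‖ind ℂ P (uv E c)‖ ^ 2 / d ^ 2‖ ≤ 1 / d ^ 2 := fun c c' => by
    rw [Real.norm_of_nonneg (by positivity)]
    exact div_le_div_of_nonneg_right (hp P c) (by positivity)
  have hQ : ∀ c c' : Λ, ‖‖ind ℂ Q (uv E c')‖ ^ 2 / d' ^ 2‖ ≤ 1 / d' ^ 2 := fun c c' => by
    rw [Real.norm_of_nonneg (by positivity)]
    exact div_le_div_of_nonneg_right (hp Q c') (by positivity)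
  have hη' : ∀ c c' : Λ, ‖η‖ ≤ η := fun _ _ => by rw [Real.norm_of_nonneg hη]
  have hηP : ∀ c c' : Λ, ‖η + ‖ind ℂ P (uv E c)‖ ^ 2 / d ^ 2‖ ≤ η + 1 / d ^ 2 := fun c c' =>
    (norm_add_le _ _).trans (add_le_add (hη' c c') (hP c c'))
  have hηPQ : ∀ c c' : Λ, ‖(η + ‖ind ℂ P (uv E c)‖ ^ 2 / d ^ 2) + ‖ind ℂ Q (uv E c')‖ ^ 2 / d' ^ 2‖ ≤ (η + 1 / d ^ 2) + 1 / d' ^ 2 :=
    fun c c' => (norm_add_le _ _).trans (add_le_add (hηP c c') (hQ c c'))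
  refine (da_mono hf hηPQ hpt n m).trans (le_of_eq ?_)
  rw [da_add hηP hQ, da_add hη' hP, da_const]
  have e1 : da μ a w (fun c _ => ‖ind ℂ P (uv E c)‖ ^ 2 / d ^ 2) n m = Pool.Agent.Helper9.FQ.mass μ a E P (w ^ n) / d ^ 2 := by
    rw [da, Pool.Agent.Helper9.FQ.mass_int]
    simp only [integral_const, probReal_univ, one_smul]
    rw [integral_div]
    rfl
  have e2 : da μ a w (fun _ c' => ‖ind ℂ Q (uv E c')‖ ^ 2 / d' ^ 2) n m = Pool.Agent.Helper9.FQ.mass μ a E Q (w ^ m) / d' ^ 2 := by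
    rw [da, Pool.Agent.Helper9.FQ.mass_int]
    simp only [integral_const, probReal_univ, one_smul]
    rw [integral_div]
    rfl
  rw [e1, e2]

end Mk

section Tr

variable {G Λ : Type} [Group G] [Group Λ] {E : Emb Λ G}

/-- The left translations commute with the right translations. -/
theorem commR_lamU (b : G) : CommR (lamU b) := fun k f => lam_rho b k f

theorem commR_mul {u v : L2 G ≃ₗᵢ[ℂ] L2 G} (hu : CommR u) (hv : CommR v) : CommR (u * v) := by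
  intro k f
  change u (v (rhoU k f)) = rhoU k (u (v f))
  rw [hv, hu]

/-- The unitary `λ_b U_c'`. -/
theorem commR_lam_mul (E : Emb Λ G) (b : G) (c' : Λ) : CommR (lamU b * E.U c') := commR_mul (commR_lamU b) (E.comm c')

theorem lam_mul_dl (E : Emb Λ G) (b : G) (c' : Λ) : (lamU b * E.U c' : L2 G ≃ₗᵢ[ℂ] L2 G) (GVN.dl 1) = lamU b (uv E c') := rfl

/-- `U_c δ_b U_c'` as the image of `δ₁` under two unitaries. -/
theorem lr_dl_mul (E : Emb Λ G) (c c' : Λ) (b : G) :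
    lr E c c' (GVN.dl b) = E.U c ((lamU b * E.U c' : L2 G ≃ₗᵢ[ℂ] L2 G) (GVN.dl 1)) := lr_dl c c' b

theorem ind_lamU (S : Set G) (b : G) (f : L2 G) : ind ℂ S (lamU b f) = lamU b (ind ℂ {h | b * h ∈ S} f) := by
  classical
  apply l2_ext
  intro k
  rw [ind_dec, lamU_apply, lamU_apply, ind_dec]
  have e : (b⁻¹ * k ∈ {h | b * h ∈ S}) ↔ k ∈ S := by
    change b * (b⁻¹ * k) ∈ S ↔ k ∈ S
    rw [mul_inv_cancel_left]
  by_cases hk : k ∈ S
  · rw [if_pos hk, if_pos (e.2 hk)]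
  · rw [if_neg hk, if_neg fun h => hk (e.1 h)]

theorem norm_ind_lamU (S : Set G) (b : G) (f : L2 G) : ‖ind ℂ S (lamU b f)‖ = ‖ind ℂ {h | b * h ∈ S} f‖ := by
  rw [ind_lamU, LinearIsometryEquiv.norm_map]

theorem norm_ind_mono {S T : Set G} (h : S ⊆ T) (f : L2 G) : ‖ind ℂ S f‖ ≤ ‖ind ℂ T f‖ :=
  (sq_le_sq₀ (norm_nonneg _) (norm_nonneg _)).1 (ind_mono h f)

end Tr

section Sa

variable {ω : Ultrafilter ℕ}

theorem ev_sa_le (hω : (ω : Filter ℕ) ≤ atTop) {f : ℕ → ℕ → ℝ} {n0 : ℕ} {ε : ℝ} (h : ∀ n m, n0 ≤ n → n0 ≤ m → f n m ≤ ε) :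
    ∀ᶠ N in (ω : Filter ℕ), sa ℝ f N ≤ ε := by
  have h1 : ∀ᶠ N : ℕ in (ω : Filter ℕ), max n0 1 ≤ N := hω (eventually_ge_atTop _)
  filter_upwards [h1] with N hN
  have h2 : sa ℝ (fun _ _ => ε) N = ε := sa_const ℝ ε (by omega)
  rw [← h2]
  exact sa_mono fun n m hn hm => h n m (by omega) (by omega)

theorem ev_le_sa (hω : (ω : Filter ℕ) ≤ atTop) {f : ℕ → ℕ → ℝ} {n0 : ℕ} {ε : ℝ} (h : ∀ n m, n0 ≤ n → n0 ≤ m → ε ≤ f n m) :
    ∀ᶠ N in (ω : Filter ℕ), ε ≤ sa ℝ f N := by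
  have h1 : ∀ᶠ N : ℕ in (ω : Filter ℕ), max n0 1 ≤ N := hω (eventually_ge_atTop _)
  filter_upwards [h1] with N hN
  have h2 : sa ℝ (fun _ _ => ε) N = ε := sa_const ℝ ε (by omega)
  rw [← h2]
  exact sa_mono fun n m hn hm => h n m (by omega) (by omega)

theorem tendsto_sa_le (hω : (ω : Filter ℕ) ≤ atTop) {f : ℕ → ℕ → ℝ} {n0 : ℕ} {ε x : ℝ} (h : ∀ n m, n0 ≤ n → n0 ≤ m → f n m ≤ ε)
    (hx : Tendsto (sa ℝ f) ω (𝓝 x)) : x ≤ ε := le_of_tendsto hx (ev_sa_le hω h)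

theorem le_tendsto_sa (hω : (ω : Filter ℕ) ≤ atTop) {f : ℕ → ℕ → ℝ} {n0 : ℕ} {ε x : ℝ} (h : ∀ n m, n0 ≤ n → n0 ≤ m → ε ≤ f n m)
    (hx : Tendsto (sa ℝ f) ω (𝓝 x)) : ε ≤ x := ge_of_tendsto hx (ev_le_sa hω h)

theorem ul_sa_le (hω : (ω : Filter ℕ) ≤ atTop) {f : ℕ → ℕ → ℝ} {C : ℝ} (hf : ∀ n m, ‖f n m‖ ≤ C) {n0 : ℕ} {ε : ℝ}
    (h : ∀ n m, n0 ≤ n → n0 ≤ m → f n m ≤ ε) : ul ω (sa ℝ f) ≤ ε :=
  tendsto_sa_le hω h (ul_tendsto (C := C) fun N => norm_sa_le ℝ hf N)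

theorem le_ul_sa (hω : (ω : Filter ℕ) ≤ atTop) {f : ℕ → ℕ → ℝ} {C : ℝ} (hf : ∀ n m, ‖f n m‖ ≤ C) {n0 : ℕ} {ε : ℝ}
    (h : ∀ n m, n0 ≤ n → n0 ≤ m → ε ≤ f n m) : ε ≤ ul ω (sa ℝ f) :=
  le_tendsto_sa hω h (ul_tendsto (C := C) fun N => norm_sa_le ℝ hf N)

end Sa

end Pool.Agent.Helper11.FQ
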